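import Pool.Agent.Lib.MP_50d0fc_nt.Identity
import Pool.Agent.Lib.MP_50d0fc_nt.LB.Final

/-!
# The logarithmic derivative of `L(s, χ)` at the central point

The functional equation fixes the real part of `L'/L(1/2, χ)` up to a bounded error, and for every
large prime `q` the imaginary part is at least `c log q` for some odd `χ` mod `q`.  So the
suggested asymptotic `A √(log q) (log log q)^D` is wrong, also after the forced real part
`-(1/2) log q` has been removed, and then in every single direction `θ`.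
-/

set_option autoImplicit false

open Complex DirichletCharacter

namespace Pool.Agent.Results.MP_50d0fc_nt.CentralLogDerivative

/-- The value `L'/L(1/2, χ)`. -/
noncomputable def centralLD {q : ℕ} [NeZero q] (χ : DirichletCharacter ℂ q) : ℂ :=
  deriv (LFunction χ) (1 / 2) / LFunction χ (1 / 2)

/-- For prime `q → ∞` the maximum of `f q (L'/L(1/2, χ))` over all nonprincipal characters `χ`
mod `q` with `L(1/2, χ) ≠ 0` is asymptotic to `F q`. -/
def AsympMax (f : ℕ → ℂ → ℝ) (F : ℕ → ℝ) : Prop :=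
  ∀ ε : ℝ, 0 < ε → ∃ Q : ℕ, ∀ (q : ℕ) [NeZero q], q.Prime → Q ≤ q →
    (∀ χ : DirichletCharacter ℂ q, χ ≠ 1 → LFunction χ (1 / 2) ≠ 0 →
      f q (centralLD χ) ≤ (1 + ε) * F q) ∧
    (∃ χ : DirichletCharacter ℂ q, χ ≠ 1 ∧ LFunction χ (1 / 2) ≠ 0 ∧
      (1 - ε) * F q ≤ f q (centralLD χ))

/-- The same for `M_q(θ) = max Re (e^{-iθ} L'/L(1/2, χ))`, uniformly for `θ ∈ [0, 2π]`. -/
def UniformMax (F : ℕ → ℝ) : Prop :=
  ∀ ε : ℝ, 0 < ε → ∃ Q : ℕ, ∀ (q : ℕ) [NeZero q], q.Prime → Q ≤ q →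
    ∀ θ ∈ Set.Icc (0 : ℝ) (2 * Real.pi),
    (∀ χ : DirichletCharacter ℂ q, χ ≠ 1 → LFunction χ (1 / 2) ≠ 0 →
      (Complex.exp (-(θ : ℂ) * Complex.I) * centralLD χ).re ≤ (1 + ε) * F q) ∧
    (∃ χ : DirichletCharacter ℂ q, χ ≠ 1 ∧ LFunction χ (1 / 2) ≠ 0 ∧
      (1 - ε) * F q ≤ (Complex.exp (-(θ : ℂ) * Complex.I) * centralLD χ).re)

/-- `A √(log q) (log log q)^D`. -/
noncomputable def size (A D : ℝ) (q : ℕ) : ℝ :=
  A * Real.sqrt (Real.log q) * (Real.log (Real.log q)) ^ D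

/-- `F(q)` tends to infinity and is `o(log q)`. -/
def Small (F : ℕ → ℝ) : Prop :=
  Filter.Tendsto F Filter.atTop Filter.atTop ∧
    Filter.Tendsto (fun q : ℕ => F q / Real.log q) Filter.atTop (nhds 0)

lemma tendsto_log_nat : Filter.Tendsto (fun n : ℕ => Real.log n) Filter.atTop Filter.atTop :=
  Real.tendsto_log_atTop.comp tendsto_natCast_atTop_atTop

/-- The functions of the question are small. -/
lemma small_size (A D : ℝ) (hA : 0 < A) : Small (size A D) := by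
  constructor
  · -- `√x (log x)^D → ∞`
    have h1 : (fun x : ℝ => (Real.log x) ^ (-D)) =o[Filter.atTop] fun x : ℝ => x ^ (1 / 4 : ℝ) :=
      isLittleO_log_rpow_rpow_atTop (-D) (by norm_num)
    have h2 := h1.def (show (0 : ℝ) < 1 by norm_num)
    have h3 : Filter.Tendsto (fun x : ℝ => A * x ^ (1 / 4 : ℝ)) Filter.atTop Filter.atTop :=
      (tendsto_rpow_atTop (by norm_num)).const_mul_atTop hA
    have h4 : Filter.Tendsto (fun x : ℝ => A * Real.sqrt x * (Real.log x) ^ D)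
        Filter.atTop Filter.atTop := by
      refine Filter.tendsto_atTop_mono' Filter.atTop ?_ h3
      filter_upwards [h2, Filter.eventually_gt_atTop (Real.exp 1)] with x hx hx1
      have hx0 : 0 < x := lt_trans (Real.exp_pos 1) hx1
      have hl : 0 < Real.log x := by
        have := Real.log_lt_log (Real.exp_pos 1) hx1
        rw [Real.log_exp] at this
        linarith
      have hs : Real.sqrt x = x ^ (1 / 4 : ℝ) * x ^ (1 / 4 : ℝ) := by
        rw [Real.sqrt_eq_rpow, ← Real.rpow_add hx0]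
        norm_num
      have hp : 0 < x ^ (1 / 4 : ℝ) := Real.rpow_pos_of_pos hx0 _
      have hD : 0 < (Real.log x) ^ D := Real.rpow_pos_of_pos hl D
      rw [one_mul, Real.norm_of_nonneg hp.le, Real.norm_of_nonneg (Real.rpow_nonneg hl.le _),
        Real.rpow_neg hl.le] at hx
      have h5 : 1 ≤ x ^ (1 / 4 : ℝ) * (Real.log x) ^ D := by
        have := mul_le_mul_of_nonneg_right hx hD.le
        rwa [inv_mul_cancel₀ hD.ne'] at this
      rw [hs]
      calc A * x ^ (1 / 4 : ℝ) = A * x ^ (1 / 4 : ℝ) * 1 := by ring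
        _ ≤ A * x ^ (1 / 4 : ℝ) * (x ^ (1 / 4 : ℝ) * (Real.log x) ^ D) := by gcongr
        _ = A * (x ^ (1 / 4 : ℝ) * x ^ (1 / 4 : ℝ)) * (Real.log x) ^ D := by ring
    exact h4.comp tendsto_log_nat
  · have h1 : (fun x : ℝ => (Real.log x) ^ D) =o[Filter.atTop] fun x : ℝ => x ^ (1 / 2 : ℝ) :=
      isLittleO_log_rpow_rpow_atTop D (by norm_num)
    have h2 : Filter.Tendsto (fun x : ℝ => (Real.log x) ^ D / x ^ (1 / 2 : ℝ))
        Filter.atTop (nhds 0) := h1.tendsto_div_nhds_zero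
    have h3 : Filter.Tendsto (fun x : ℝ => A * ((Real.log x) ^ D / x ^ (1 / 2 : ℝ)))
        Filter.atTop (nhds 0) := by
      simpa using h2.const_mul A
    have h4 : Filter.Tendsto (fun x : ℝ => A * Real.sqrt x * (Real.log x) ^ D / x)
        Filter.atTop (nhds 0) := by
      refine h3.congr' ?_
      filter_upwards [Filter.eventually_gt_atTop 0] with x hx
      have hs : Real.sqrt x = x ^ (1 / 2 : ℝ) := Real.sqrt_eq_rpow x
      have hp : 0 < x ^ (1 / 2 : ℝ) := Real.rpow_pos_of_pos hx _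
      have hxx : x = x ^ (1 / 2 : ℝ) * x ^ (1 / 2 : ℝ) := by
        rw [← Real.rpow_add hx]
        norm_num
      rw [hs]
      have hgoal : A * ((Real.log x) ^ D / x ^ (1 / 2 : ℝ)) =
          A * x ^ (1 / 2 : ℝ) * (Real.log x) ^ D /
            (x ^ (1 / 2 : ℝ) * x ^ (1 / 2 : ℝ)) := by
        field_simp
      rw [hgoal, ← hxx]
    exact h4.comp tendsto_log_nat

/-- A small function is smaller than `a log q - C` for large `q`. -/
lemma small_upper {F : ℕ → ℝ} (hF : Small F) (a C : ℝ) (ha : 0 < a) :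
    ∃ Q : ℕ, ∀ q : ℕ, Q ≤ q → 2 * F q < a * Real.log q - C := by
  have h1 := hF.2.eventually (gt_mem_nhds (show (0 : ℝ) < a / 4 by positivity))
  have h2 := tendsto_log_nat.eventually_gt_atTop (max 1 (2 * |C| / a))
  obtain ⟨Q, hQ⟩ := Filter.eventually_atTop.mp (h1.and h2)
  refine ⟨Q, fun q hq => ?_⟩
  obtain ⟨h3, h4⟩ := hQ q hq
  have h5 : 1 < Real.log q := lt_of_le_of_lt (le_max_left _ _) h4
  have h6 : 2 * |C| / a < Real.log q := lt_of_le_of_lt (le_max_right _ _) h4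
  have h7 : F q < a / 4 * Real.log q := by
    rwa [div_lt_iff₀ (by linarith)] at h3
  have h8 : 2 * |C| < Real.log q * a := by rwa [div_lt_iff₀ ha] at h6
  have h9 := le_abs_self C
  linarith

/-- The real part of `L'/L(1/2, χ)` is `-(1/2) log q + O(1)`. -/
lemma re_centralLD : ∃ C : ℝ, ∀ (q : ℕ) [NeZero q], q.Prime → ∀ χ : DirichletCharacter ℂ q,
    χ ≠ 1 → LFunction χ (1 / 2) ≠ 0 → |(centralLD χ).re + Real.log q / 2| ≤ C := by
  obtain ⟨C, hC⟩ := Pool.Agent.Lib.MP_50d0fc_nt.exists_gammaFactor_bound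
  refine ⟨C, ?_⟩
  intro q _ hq χ hχ h0
  have h := Pool.Agent.Lib.MP_50d0fc_nt.re_logDeriv_LFunction_half hq hχ h0
  have h1 := hC q χ
  unfold centralLD
  rw [h]
  have h2 : -Real.log q / 2 - (logDeriv (gammaFactor χ) (1 / 2)).re + Real.log q / 2 =
      -(logDeriv (gammaFactor χ) (1 / 2)).re := by ring
  rw [h2, abs_neg]
  exact h1

/-- The logarithmic derivative at `1/2` of the inverse character. -/
lemma centralLD_inv {q : ℕ} [NeZero q] {χ : DirichletCharacter ℂ q} (hχ : χ ≠ 1) :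
    centralLD χ⁻¹ = (starRingEnd ℂ) (centralLD χ) := by
  have hconjpt : (starRingEnd ℂ) (1 / 2 : ℂ) = 1 / 2 := by
    apply Complex.ext <;> simp
  have hL : LFunction χ⁻¹ (1 / 2) = (starRingEnd ℂ) (LFunction χ (1 / 2)) := by
    have := Pool.Agent.Lib.MP_50d0fc_nt.LFunction_inv_conj χ hχ (1 / 2)
    rwa [hconjpt] at this
  have hLd : deriv (LFunction χ⁻¹) (1 / 2) = (starRingEnd ℂ) (deriv (LFunction χ) (1 / 2)) := by
    have hfun : LFunction χ⁻¹ = (starRingEnd ℂ) ∘ LFunction χ ∘ (starRingEnd ℂ) := by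
      funext s
      have := Pool.Agent.Lib.MP_50d0fc_nt.LFunction_inv_conj χ hχ ((starRingEnd ℂ) s)
      rw [Complex.conj_conj] at this
      simpa using this
    rw [hfun, deriv_conj_conj]
    simp only [Function.comp]
    rw [hconjpt]
  unfold centralLD
  rw [hL, hLd, map_div₀]

lemma LFunction_inv_ne {q : ℕ} [NeZero q] {χ : DirichletCharacter ℂ q} (hχ : χ ≠ 1)
    (h0 : LFunction χ (1 / 2) ≠ 0) : LFunction χ⁻¹ (1 / 2) ≠ 0 := by
  have hconjpt : (starRingEnd ℂ) (1 / 2 : ℂ) = 1 / 2 := by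
    apply Complex.ext <;> simp
  have := Pool.Agent.Lib.MP_50d0fc_nt.LFunction_inv_conj χ hχ (1 / 2)
  rw [hconjpt] at this
  rw [this]
  simpa using h0

/-- `Re (e^{-iθ} z)` in coordinates. -/
lemma re_exp_mul (θ : ℝ) (z : ℂ) :
    (Complex.exp (-(θ : ℂ) * Complex.I) * z).re = Real.cos θ * z.re + Real.sin θ * z.im := by
  have h : Complex.exp (-(θ : ℂ) * Complex.I) = ⟨Real.cos θ, -Real.sin θ⟩ := by
    have h1 : (-(θ : ℂ) * Complex.I) = ((-θ : ℝ) : ℂ) * Complex.I := by push_cast; ring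
    rw [h1]
    apply Complex.ext
    · rw [Complex.exp_ofReal_mul_I_re, Real.cos_neg]
    · rw [Complex.exp_ofReal_mul_I_im, Real.sin_neg]
  rw [h]
  simp [Complex.mul_re]

lemma odd_ne_one {q : ℕ} [NeZero q] (hq : q.Prime) {χ : DirichletCharacter ℂ q} (h : χ.Odd) :
    χ ≠ 1 :=
  Pool.Agent.Lib.MP_50d0fc_nt.LB.ne_one_of_odd h hq

lemma odd_inv {q : ℕ} [NeZero q] {χ : DirichletCharacter ℂ q} (h : χ.Odd) : χ⁻¹.Odd := by
  have h1 : χ (-1) = -1 := h
  show χ⁻¹ (-1) = -1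
  rw [MulChar.inv_apply_eq_inv', h1]
  norm_num

/-- The lower bound with a sign. -/
lemma exists_im : ∃ c : ℝ, 0 < c ∧ ∃ Q : ℕ, ∀ (q : ℕ) [NeZero q], q.Prime → Q ≤ q →
    ∃ χ : DirichletCharacter ℂ q, χ.Odd ∧ LFunction χ (1 / 2) ≠ 0 ∧
      c * Real.log q ≤ (centralLD χ).im := by
  obtain ⟨c, hc, Q, hQ⟩ := Pool.Agent.Lib.MP_50d0fc_nt.LB.lowerBound
  refine ⟨c, hc, Q, ?_⟩
  intro q _ hq hqQ
  obtain ⟨χ, hodd, h0, him⟩ := hQ q hq hqQ
  have him' : c * Real.log q ≤ |(centralLD χ).im| := him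
  rcases le_total 0 (centralLD χ).im with h | h
  · rw [abs_of_nonneg h] at him'
    exact ⟨χ, hodd, h0, him'⟩
  · rw [abs_of_nonpos h] at him'
    refine ⟨χ⁻¹, odd_inv hodd, LFunction_inv_ne (odd_ne_one hq hodd) h0, ?_⟩
    rw [centralLD_inv (odd_ne_one hq hodd), Complex.conj_im]
    exact him'

/-- The lower bound in a direction. -/
lemma exists_dir {c : ℝ} {q : ℕ} [NeZero q] (hq : q.Prime)
    (h : ∃ χ : DirichletCharacter ℂ q, χ.Odd ∧ LFunction χ (1 / 2) ≠ 0 ∧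
      c * Real.log q ≤ (centralLD χ).im) (σ : ℝ) :
    ∃ χ : DirichletCharacter ℂ q, χ ≠ 1 ∧ LFunction χ (1 / 2) ≠ 0 ∧
      c * |σ| * Real.log q ≤ σ * (centralLD χ).im := by
  obtain ⟨χ, hodd, h0, him⟩ := h
  have h1 := odd_ne_one hq hodd
  rcases le_total 0 σ with hσ | hσ
  · refine ⟨χ, h1, h0, ?_⟩
    rw [abs_of_nonneg hσ]
    have := mul_le_mul_of_nonneg_left him hσ
    linarith
  · refine ⟨χ⁻¹, Pool.Agent.Lib.MP_50d0fc_nt.inv_ne_one h1, LFunction_inv_ne h1 h0, ?_⟩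
    rw [centralLD_inv h1, Complex.conj_im, abs_of_nonpos hσ]
    have := mul_le_mul_of_nonneg_left him (neg_nonneg.mpr hσ)
    linarith

/-- Both signs of the imaginary part occur. -/
lemma exists_abs {q : ℕ} [NeZero q] {χ : DirichletCharacter ℂ q} (h1 : χ ≠ 1)
    (h0 : LFunction χ (1 / 2) ≠ 0) (σ : ℝ) :
    ∃ ψ : DirichletCharacter ℂ q, ψ ≠ 1 ∧ LFunction ψ (1 / 2) ≠ 0 ∧
      (centralLD ψ).re = (centralLD χ).re ∧
      σ * (centralLD ψ).im = |σ| * |(centralLD χ).im| := by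
  by_cases hs : 0 ≤ σ * (centralLD χ).im
  · refine ⟨χ, h1, h0, rfl, ?_⟩
    rw [← abs_mul, abs_of_nonneg hs]
  · push Not at hs
    refine ⟨χ⁻¹, Pool.Agent.Lib.MP_50d0fc_nt.inv_ne_one h1, LFunction_inv_ne h1 h0, ?_, ?_⟩
    · rw [centralLD_inv h1, Complex.conj_re]
    · rw [centralLD_inv h1, Complex.conj_im, ← abs_mul, abs_of_neg hs]
      ring

/-- After removing the forced real part, the asymptotic fails in every direction. -/
lemma centred (F : ℕ → ℝ) (hF : Small F) (θ : ℝ) :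
    ¬ AsympMax (fun q z =>
      (Complex.exp (-(θ : ℂ) * Complex.I) * (z + ((Real.log q / 2 : ℝ) : ℂ))).re) F := by
  intro hM
  obtain ⟨C, hC⟩ := re_centralLD
  obtain ⟨c, hc, Q1, hQ1⟩ := exists_im
  have hcoord : ∀ (q : ℕ) (z : ℂ),
      (Complex.exp (-(θ : ℂ) * Complex.I) * (z + ((Real.log q / 2 : ℝ) : ℂ))).re =
      Real.cos θ * (z.re + Real.log q / 2) + Real.sin θ * z.im := by
    intro q z
    rw [re_exp_mul, Complex.add_re, Complex.add_im, Complex.ofReal_re, Complex.ofReal_im,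
      add_zero]
  have hcosb : |Real.cos θ| ≤ 1 := Real.abs_cos_le_one θ
  have hbnd : ∀ (q : ℕ) [NeZero q], q.Prime → ∀ χ : DirichletCharacter ℂ q, χ ≠ 1 →
      LFunction χ (1 / 2) ≠ 0 → |Real.cos θ * ((centralLD χ).re + Real.log q / 2)| ≤ C := by
    intro q _ hq χ h1 h0
    have h2 := hC q hq χ h1 h0
    rw [abs_mul]
    have h3 : 0 ≤ C := (abs_nonneg _).trans h2
    calc |Real.cos θ| * |(centralLD χ).re + Real.log q / 2| ≤ 1 * C := by gcongr
      _ = C := one_mul C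
  by_cases hsin : Real.sin θ = 0
  · obtain ⟨Q2, hQ2⟩ := hM (1 / 2) (by norm_num)
    obtain ⟨Q3, hQ3⟩ := Filter.eventually_atTop.mp (hF.1.eventually_gt_atTop (2 * C))
    obtain ⟨q, hq1, hq2⟩ := Nat.exists_infinite_primes (max Q2 Q3)
    have : NeZero q := ⟨hq2.ne_zero⟩
    obtain ⟨-, χ, h1, h0, hle⟩ := hQ2 q hq2 (le_trans (le_max_left _ _) hq1)
    have h2 := hQ3 q (le_trans (le_max_right _ _) hq1)
    have h3 := (abs_le.mp (hbnd q hq2 χ h1 h0)).2
    have h4 := hcoord q (centralLD χ)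
    rw [hsin, zero_mul, add_zero] at h4
    simp only [h4] at hle
    linarith
  · obtain ⟨Q2, hQ2⟩ := hM 1 one_pos
    have ha : 0 < c * |Real.sin θ| := by positivity
    obtain ⟨Q3, hQ3⟩ := small_upper hF (c * |Real.sin θ|) C ha
    obtain ⟨q, hq1, hq2⟩ := Nat.exists_infinite_primes (max Q1 (max Q2 Q3))
    have : NeZero q := ⟨hq2.ne_zero⟩
    have hqa : Q1 ≤ q := le_trans (le_max_left _ _) hq1
    have hqb : Q2 ≤ q := le_trans (le_trans (le_max_left _ _) (le_max_right _ _)) hq1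
    have hqc : Q3 ≤ q := le_trans (le_trans (le_max_right _ _) (le_max_right _ _)) hq1
    obtain ⟨χ, h1, h0, him⟩ := exists_dir hq2 (hQ1 q hq2 hqa) (Real.sin θ)
    have h2 := (hQ2 q hq2 hqb).1 χ h1 h0
    have h3 := hQ3 q hqc
    have h4 := (abs_le.mp (hbnd q hq2 χ h1 h0)).1
    simp only [hcoord q (centralLD χ)] at h2
    linarith

/-- The directions in which `M_q(θ)` is asymptotic to some small function. -/
def Good (θ : ℝ) : Prop := ∃ F : ℕ → ℝ, Small F ∧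
  AsympMax (fun _ z => (Complex.exp (-(θ : ℂ) * Complex.I) * z).re) F

lemma good_cos (θ : ℝ) (h : Good θ) : 0 < Real.cos θ ∧ Real.cos θ < 1 := by
  obtain ⟨F, hF, hM⟩ := h
  obtain ⟨C, hC⟩ := re_centralLD
  obtain ⟨c, hc, Q1, hQ1⟩ := exists_im
  constructor
  · by_contra hcos
    push Not at hcos
    -- `f ≥ (c |sin θ| + |cos θ| / 2) log q - C`
    obtain ⟨Q2, hQ2⟩ := hM 1 one_pos
    have hsq := Real.sin_sq_add_cos_sq θ
    have ha : 0 < c * |Real.sin θ| + -Real.cos θ / 2 := by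
      by_cases hs : Real.sin θ = 0
      · have : Real.cos θ ≠ 0 := by
          intro h0
          rw [hs, h0] at hsq
          norm_num at hsq
        have hneg : Real.cos θ < 0 := lt_of_le_of_ne hcos this
        have := mul_nonneg hc.le (abs_nonneg (Real.sin θ))
        linarith
      · have h1 : 0 < c * |Real.sin θ| := by positivity
        linarith
    obtain ⟨Q3, hQ3⟩ := small_upper hF (c * |Real.sin θ| + -Real.cos θ / 2) (-Real.cos θ * C) ha
    obtain ⟨q, hq1, hq2⟩ := Nat.exists_infinite_primes (max Q1 (max Q2 Q3))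
    have : NeZero q := ⟨hq2.ne_zero⟩
    have hqa : Q1 ≤ q := le_trans (le_max_left _ _) hq1
    have hqb : Q2 ≤ q := le_trans (le_trans (le_max_left _ _) (le_max_right _ _)) hq1
    have hqc : Q3 ≤ q := le_trans (le_trans (le_max_right _ _) (le_max_right _ _)) hq1
    obtain ⟨χ, h1, h0, him⟩ := exists_dir hq2 (hQ1 q hq2 hqa) (Real.sin θ)
    have h2 := (hQ2 q hq2 hqb).1 χ h1 h0
    have h3 := hQ3 q hqc
    have h4 := (abs_le.mp (hC q hq2 χ h1 h0)).2
    simp only [re_exp_mul] at h2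
    have h5 : -Real.cos θ * ((centralLD χ).re + Real.log q / 2) ≤ -Real.cos θ * C :=
      mul_le_mul_of_nonneg_left h4 (by linarith)
    linarith
  · by_contra hcos
    push Not at hcos
    have hcos1 : Real.cos θ = 1 := le_antisymm (Real.cos_le_one θ) hcos
    have hsin : Real.sin θ = 0 := by
      have hsq := Real.sin_sq_add_cos_sq θ
      rw [hcos1] at hsq
      have : Real.sin θ ^ 2 = 0 := by linarith
      exact pow_eq_zero_iff (two_ne_zero) |>.mp this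
    obtain ⟨Q2, hQ2⟩ := hM (1 / 2) (by norm_num)
    obtain ⟨Q3, hQ3⟩ := Filter.eventually_atTop.mp
      ((hF.1.eventually_gt_atTop 0).and (tendsto_log_nat.eventually_gt_atTop (2 * C)))
    obtain ⟨q, hq1, hq2⟩ := Nat.exists_infinite_primes (max Q2 Q3)
    have : NeZero q := ⟨hq2.ne_zero⟩
    obtain ⟨-, χ, h1, h0, hle⟩ := hQ2 q hq2 (le_trans (le_max_left _ _) hq1)
    obtain ⟨h2, h3⟩ := hQ3 q (le_trans (le_max_right _ _) hq1)
    have h4 := (abs_le.mp (hC q hq2 χ h1 h0)).2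
    simp only [re_exp_mul, hsin, hcos1] at hle
    linarith

/-- The arithmetic of two good directions. -/
lemma two_dirs {s₁ s₂ c₁ c₂ x t l C F : ℝ} (hs1 : 0 ≤ s₁) (hs2 : 0 ≤ s₂) (hs2' : s₂ ≤ 1)
    (hlow : 0 ≤ c₂ * x + s₂ * t) (hup : c₁ * x + s₁ * t ≤ 2 * F) (hF : 0 ≤ F)
    (hx : l / 2 - C ≤ -x) (hδ : 0 ≤ c₂ * s₁ - c₁ * s₂) :
    (c₂ * s₁ - c₁ * s₂) / 2 * l - (c₂ * s₁ - c₁ * s₂) * C ≤ 2 * F := by
  have e1 : 0 ≤ s₁ * (c₂ * x + s₂ * t) := mul_nonneg hs1 hlow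
  have e2 : s₂ * (c₁ * x + s₁ * t) ≤ s₂ * (2 * F) := mul_le_mul_of_nonneg_left hup hs2
  have e3 : s₂ * (2 * F) ≤ 1 * (2 * F) := mul_le_mul_of_nonneg_right hs2' (by linarith)
  have e4 := mul_le_mul_of_nonneg_left hx hδ
  linarith

lemma good_le (θ₁ θ₂ : ℝ) (h1 : Good θ₁) (h2 : Good θ₂) :
    Real.cos θ₂ * |Real.sin θ₁| ≤ Real.cos θ₁ * |Real.sin θ₂| := by
  by_contra hlt
  push Not at hlt
  obtain ⟨F₁, hF1, hM1⟩ := h1
  obtain ⟨F₂, hF2, hM2⟩ := h2
  obtain ⟨C, hC⟩ := re_centralLD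
  obtain ⟨Q1, hQ1⟩ := hM1 1 one_pos
  obtain ⟨Q2, hQ2⟩ := hM2 (1 / 2) (by norm_num)
  obtain ⟨Q3, hQ3⟩ := Filter.eventually_atTop.mp
    ((hF2.1.eventually_gt_atTop 0).and (hF1.1.eventually_gt_atTop 0))
  have hδ : 0 < Real.cos θ₂ * |Real.sin θ₁| - Real.cos θ₁ * |Real.sin θ₂| := by linarith
  obtain ⟨Q4, hQ4⟩ := small_upper hF1
    ((Real.cos θ₂ * |Real.sin θ₁| - Real.cos θ₁ * |Real.sin θ₂|) / 2)
    ((Real.cos θ₂ * |Real.sin θ₁| - Real.cos θ₁ * |Real.sin θ₂|) * C) (by linarith)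
  obtain ⟨q, hq1, hq2⟩ := Nat.exists_infinite_primes (max (max Q1 Q2) (max Q3 Q4))
  have : NeZero q := ⟨hq2.ne_zero⟩
  have hqa : Q1 ≤ q := le_trans (le_trans (le_max_left _ _) (le_max_left _ _)) hq1
  have hqb : Q2 ≤ q := le_trans (le_trans (le_max_right _ _) (le_max_left _ _)) hq1
  have hqc : Q3 ≤ q := le_trans (le_trans (le_max_left _ _) (le_max_right _ _)) hq1
  have hqd : Q4 ≤ q := le_trans (le_trans (le_max_right _ _) (le_max_right _ _)) hq1
  obtain ⟨-, χ, h1, h0, hle⟩ := hQ2 q hq2 hqb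
  obtain ⟨hF2p, hF1p⟩ := hQ3 q hqc
  have hF1u := hQ4 q hqd
  have hre := abs_le.mp (hC q hq2 χ h1 h0)
  simp only [re_exp_mul] at hle
  have hlow : 0 ≤ Real.cos θ₂ * (centralLD χ).re + |Real.sin θ₂| * |(centralLD χ).im| := by
    have h3 : Real.sin θ₂ * (centralLD χ).im ≤ |Real.sin θ₂| * |(centralLD χ).im| := by
      rw [← abs_mul]
      exact le_abs_self _
    linarith
  obtain ⟨ψ, hψ1, hψ0, hψre, hψim⟩ := exists_abs h1 h0 (Real.sin θ₁)
  have hup := (hQ1 q hq2 hqa).1 ψ hψ1 hψ0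
  simp only [re_exp_mul] at hup
  rw [hψre, hψim] at hup
  have hup' : Real.cos θ₁ * (centralLD χ).re + |Real.sin θ₁| * |(centralLD χ).im| ≤
      2 * F₁ q := by linarith
  have := two_dirs (abs_nonneg (Real.sin θ₁)) (abs_nonneg (Real.sin θ₂))
    (Real.abs_sin_le_one θ₂) hlow hup' hF1p.le
    (show Real.log q / 2 - C ≤ -(centralLD χ).re by linarith [hre.2]) hδ.le
  linarith

lemma good_eq (θ₁ θ₂ : ℝ) (h1 : Good θ₁) (h2 : Good θ₂) : Real.cos θ₁ = Real.cos θ₂ := by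
  have e := le_antisymm (good_le θ₁ θ₂ h1 h2) (good_le θ₂ θ₁ h2 h1)
  have hc1 := good_cos θ₁ h1
  have hc2 := good_cos θ₂ h2
  have hsq1 := Real.sin_sq_add_cos_sq θ₁
  have hsq2 := Real.sin_sq_add_cos_sq θ₂
  have e2 : (Real.cos θ₂ * |Real.sin θ₁|) ^ 2 = (Real.cos θ₁ * |Real.sin θ₂|) ^ 2 := by rw [e]
  rw [mul_pow, mul_pow, sq_abs, sq_abs] at e2
  have e3 : Real.cos θ₁ ^ 2 = Real.cos θ₂ ^ 2 := by
    have h3 : Real.sin θ₁ ^ 2 = 1 - Real.cos θ₁ ^ 2 := by linarith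
    have h4 : Real.sin θ₂ ^ 2 = 1 - Real.cos θ₂ ^ 2 := by linarith
    rw [h3, h4] at e2
    linarith
  exact (pow_left_inj₀ hc1.1.le hc2.1.le two_ne_zero).mp e3

/-- (1) The asymptotic of the question fails, for all constants `A > 0` and `D`; the function
`A √(log q) (log log q)^D` is small (tends to infinity and is `o(log q)`).
(2) For all large primes `q` some odd `χ` mod `q` has `L(1/2, χ) ≠ 0` and
`Im L'/L(1/2, χ) ≥ c log q`.
(3) There is `c₀` with `0 < c₀ < 1` such that for every small function `F` and every `θ` the maximum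
of `Re (e^{-iθ} (L'/L(1/2, χ) + (1/2) log q))` is not asymptotic to `F`, and, if `cos θ ≠ c₀`, the
maximum `M_q(θ)` of `Re (e^{-iθ} L'/L(1/2, χ))` is not asymptotic to `F`. -/
theorem result :
    (∀ A D : ℝ, 0 < A → Small (size A D) ∧ ¬ UniformMax (size A D)) ∧
    (∃ c : ℝ, 0 < c ∧ ∃ Q : ℕ, ∀ (q : ℕ) [NeZero q], q.Prime → Q ≤ q →
      ∃ χ : DirichletCharacter ℂ q, χ.Odd ∧ LFunction χ (1 / 2) ≠ 0 ∧
        c * Real.log q ≤ (centralLD χ).im) ∧
    (∃ c₀ : ℝ, 0 < c₀ ∧ c₀ < 1 ∧ ∀ F : ℕ → ℝ, Small F → ∀ θ : ℝ,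
      ¬ AsympMax (fun q z =>
        (Complex.exp (-(θ : ℂ) * Complex.I) * (z + ((Real.log q / 2 : ℝ) : ℂ))).re) F ∧
      (Real.cos θ ≠ c₀ →
        ¬ AsympMax (fun _ z => (Complex.exp (-(θ : ℂ) * Complex.I) * z).re) F)) := by
  have h4 : ∃ c₀ : ℝ, 0 < c₀ ∧ c₀ < 1 ∧ ∀ F : ℕ → ℝ, Small F → ∀ θ : ℝ, Real.cos θ ≠ c₀ →
      ¬ AsympMax (fun _ z => (Complex.exp (-(θ : ℂ) * Complex.I) * z).re) F := by
    by_cases hex : ∃ θ₀ : ℝ, Good θ₀
    · obtain ⟨θ₀, hθ₀⟩ := hex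
      obtain ⟨h1, h2⟩ := good_cos θ₀ hθ₀
      refine ⟨Real.cos θ₀, h1, h2, fun F hF θ hθ hM => ?_⟩
      exact hθ (good_eq θ θ₀ ⟨F, hF, hM⟩ hθ₀)
    · refine ⟨1 / 2, by norm_num, by norm_num, fun F hF θ _ hM => ?_⟩
      exact hex ⟨θ, F, hF, hM⟩
  obtain ⟨c₀, hc0, hc1, hno⟩ := h4
  refine ⟨fun A D hA => ⟨small_size A D hA, ?_⟩, exists_im,
    c₀, hc0, hc1, fun F hF θ => ⟨centred F hF θ, hno F hF θ⟩⟩
  intro hU
  refine hno (size A D) (small_size A D hA) 0 (by rw [Real.cos_zero]; exact hc1.ne') ?_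
  intro ε hε
  obtain ⟨Q, hQ⟩ := hU ε hε
  refine ⟨Q, fun q _ hq hqQ => ?_⟩
  exact hQ q hq hqQ 0 ⟨le_refl 0, by positivity⟩

end Pool.Agent.Results.MP_50d0fc_nt.CentralLogDerivative
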